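import Pool.Agent.Helper61.NW.Goals2
import Pool.Agent.Helper52.Wq2.Stars

/-!
# Project NW+, packet LTT: line systems are of type `T3`
-/

set_option autoImplicit false

namespace Pool.Agent.Helper59.NW

open Pool.Agent.Helper52.Wq2 Pool.Agent.Helper61.NW
open scoped Nat

universe u

variable {n m : ℕ} {G : SimpleGraph (ℤ × Fin n)}

/-- The relation which defines the graph of the lines. -/
def rel (G : SimpleGraph (ℤ × Fin n)) (i j : Fin n) : Prop := ∃ a b : ℤ, G.Adj (a, i) (b, j)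

theorem lg_adj (i j : Fin n) : (Lg G).Adj i j ↔ i ≠ j ∧ (rel G i j ∨ rel G j i) := by
  unfold Lg rel
  rw [SimpleGraph.fromRel_adj]

theorem conn_lg (h : Lsys n m G) : Conn (Lg G) Set.univ := by
  refine ⟨⟨⟨0, h.npos⟩, Set.mem_univ _⟩, ?_⟩
  intro A _ hA hcl
  obtain ⟨a, ha⟩ := hA
  have key := h.conn.2 {x : ℤ × Fin n | x.2 ∈ A} (Set.subset_univ _) ⟨(0, a), ha⟩ (by
    rintro ⟨x, i⟩ hx ⟨y, j⟩ _ hxy
    by_cases hij : i = j
    · subst hij
      exact hx
    · refine hcl i hx j (Set.mem_univ _) ?_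
      rw [lg_adj]
      exact ⟨hij, Or.inl ⟨x, y, hxy⟩⟩)
  intro j _
  exact key (Set.mem_univ ((0 : ℤ), j))

theorem trans_lg (h : Lsys n m G) (i j : Fin n) : ∃ e : Lg G ≃g Lg G, e i = j := by
  obtain ⟨f, τ, e, c, he, hτ, hf⟩ := h.trans i j
  have hee : e * e = 1 := by
    rcases he with rfl | rfl <;> norm_num
  have hrel : ∀ u v, rel G (τ u) (τ v) ↔ rel G u v := by
    intro u v
    constructor
    · rintro ⟨a, b, hab⟩
      refine ⟨e * (a - c u), e * (b - c v), ?_⟩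
      rw [← f.map_adj_iff, hf, hf, ← mul_assoc, ← mul_assoc, hee, one_mul, one_mul,
        sub_add_cancel, sub_add_cancel]
      exact hab
    · rintro ⟨a, b, hab⟩
      rw [← f.map_adj_iff, hf, hf] at hab
      exact ⟨_, _, hab⟩
  refine ⟨⟨τ, ?_⟩, hτ⟩
  intro u v
  rw [lg_adj, lg_adj, hrel, hrel, τ.injective.ne_iff]

theorem deg_lg (h : Lsys n m G) (u v : Fin n) :
    ((Lg G).neighborSet u).ncard = ((Lg G).neighborSet v).ncard := by
  obtain ⟨e, he⟩ := trans_lg h u v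
  rw [← he, ← Nat.card_coe_set_eq, ← Nat.card_coe_set_eq]
  exact Nat.card_congr (e.mapNeighborSet u)

theorem ltt (h1 : LprStmt) (h2 : LstStmt) (h3 : DegStmt.{0}) (h4 : CycStmt.{0})
    (h5 : LcnStmt) (h6 : LcxStmt) (h7 : LncStmt) : LttStmt := by
  intro n m G hL hm
  refine ⟨⟨n * m, Nat.mul_le_mul_left _ hm, h1 n m G hL⟩, ?_⟩
  intro p hp
  have hcard : Nat.card (Fin n) = n := Nat.card_fin n
  have hlow2 : (2 * p + 3) * (2 * p + 3) ≤ (2 * p + 3) ^ (8 * p + 6) := by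
    rw [← pow_two]
    exact Nat.pow_le_pow_right (by omega) (by omega)
  have hn4 : 2 * (2 * p) + 4 ≤ n := by nlinarith
  by_cases hdeg : ∀ v : Fin n, 3 ≤ ((Lg G).neighborSet v).ncard
  · left
    obtain ⟨C, B, hC, hB, hBC, hadj⟩ := h3 (Fin n) (Lg G) (conn_lg hL) hdeg (2 * p) (by
      rw [hcard, show 4 * (2 * p) + 6 = 8 * p + 6 by ring]
      omega)
    exact (pk_of_starZ p).trans (h2 n m G hL (2 * p) C B hC hB hBC hadj)
  · push Not at hdeg
    obtain ⟨v₀, hv₀⟩ := hdeg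
    have hdeg2 : ∀ v : Fin n, ((Lg G).neighborSet v).ncard ≤ 2 := by
      intro v
      rw [deg_lg hL v v₀]
      omega
    have hn3 : 3 ≤ n := by omega
    obtain ⟨e, he⟩ := h4 (Fin n) (Lg G) (conn_lg hL) hdeg2 (trans_lg hL) n hn3 hcard
    by_cases hcr : ∃ j, LCrs G e j
    · left
      exact (pk_of_starZ p).trans (h6 n m G hL hn3 e he hcr (2 * p) hn4)
    · right
      push Not at hcr
      exact ⟨h5 n m G hL hn3 e he, h7 n m G hL hn3 e he hcr⟩

end Pool.Agent.Helper59.NW
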